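import Pool.Agent.Helper56.IT.Stmts
import Pool.Agent.Helper96.AF.Bas

/-!
# Project IT (MP_a499ba_nt). Block B: random quarter turns make the phases harmless
-/

set_option autoImplicit false

namespace Pool.Agent.IT

open Finset MeasureTheory Filter Topology Pool.Agent.Helper5.RM Pool.Agent.Helper96.AF Pool.Agent.Helper66.LW

/-- second moment of a sum of signs -/
private lemma m2_17 {S S' : Finset ℕ} (h : S' ⊆ S) (a : ℕ → ℝ) :
    av S (fun T => (∑ p ∈ S', sg T p * a p) ^ 2) = ∑ p ∈ S', a p ^ 2 := by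
  have h1 : ∀ T : Finset ℕ, (∑ p ∈ S', sg T p * a p) ^ 2 =
      ∑ p ∈ S', ∑ q ∈ S', (a p * a q) * (sg T p * sg T q) := by
    intro T
    rw [sq, Finset.sum_mul_sum]
    exact Finset.sum_congr rfl fun p _ => Finset.sum_congr rfl fun q _ => by ring
  simp only [h1]
  rw [av_sum]
  refine Finset.sum_congr rfl fun p hp => ?_
  rw [av_sum, Finset.sum_eq_single p]
  · have h2 : av S (fun T => (a p * a p) * (sg T p * sg T p)) = av S (fun _ => a p ^ 2) :=
      av_congr fun T _ => by rw [sg_mul_self]; ring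
    rw [h2, av_const]
  · intro q hq hne
    rw [av_mul_left]
    have h3 : av S (fun T => sg T p * sg T q) = av S (fun T => wal T {p, q}) := by
      refine av_congr fun T _ => ?_
      rw [wal, Finset.prod_pair (Ne.symm hne)]
    rw [h3, av_wal (by
      intro x hx
      rw [Finset.mem_insert, Finset.mem_singleton] at hx
      rcases hx with rfl | rfl
      · exact h hp
      · exact h hq) ⟨p, Finset.mem_insert_self _ _⟩, mul_zero]
  · intro h'
    exact absurd hp h'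

private lemma av_int17 (S : Finset ℕ) (G : Finset ℕ → ℝ → ℝ) (hG : ∀ T, Continuous (G T)) :
    av S (fun T => ∫ x in (0 : ℝ)..1, G T x) = ∫ x in (0 : ℝ)..1, av S (fun T => G T x) := by
  unfold av
  rw [intervalIntegral.integral_div, intervalIntegral.integral_finsetSum]
  intro T _
  exact (hG T).intervalIntegrable _ _

/-- the block sum -/
private noncomputable def FB (ph : ℕ → ℝ) (j : ℕ) (T : Finset ℕ) (t : ℝ) : ℝ :=
  ∑ p ∈ BL j, sg T p * (Real.cos (2 * (t * Real.log p - ph p)) / p)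

/-- its derivative -/
private noncomputable def FD (ph : ℕ → ℝ) (j : ℕ) (T : Finset ℕ) (t : ℝ) : ℝ :=
  ∑ p ∈ BL j, sg T p * (-(2 * Real.log p * Real.sin (2 * (t * Real.log p - ph p))) / p)

private lemma FB_deriv17 (ph : ℕ → ℝ) (j : ℕ) (T : Finset ℕ) (t : ℝ) :
    HasDerivAt (FB ph j T) (FD ph j T t) t := by
  unfold FB FD
  refine HasDerivAt.fun_sum fun p _ => ?_
  refine HasDerivAt.const_mul _ ?_
  refine HasDerivAt.div_const ?_ _
  have h1 : HasDerivAt (fun t : ℝ => 2 * (t * Real.log p - ph p)) (2 * Real.log p) t := by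
    have := (((hasDerivAt_id t).mul_const (Real.log p)).sub_const (ph p)).const_mul 2
    simpa using this
  have h2 := h1.cos
  refine h2.congr_deriv ?_
  ring

private lemma FB_cont17 (ph : ℕ → ℝ) (j : ℕ) (T : Finset ℕ) : Continuous (FB ph j T) := by
  unfold FB
  fun_prop

private lemma FD_cont17 (ph : ℕ → ℝ) (j : ℕ) (T : Finset ℕ) : Continuous (FD ph j T) := by
  unfold FD
  fun_prop

/-- the majorant -/
private noncomputable def MJ (ph : ℕ → ℝ) (j : ℕ) (T : Finset ℕ) : ℝ :=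
  FB ph j T 0 ^ 2 + ∫ u in (0 : ℝ)..1, (FB ph j T u ^ 2 + FD ph j T u ^ 2)

private lemma FB_le17 (ph : ℕ → ℝ) (j : ℕ) (T : Finset ℕ) (t : ℝ) (ht : t ∈ Set.Icc (0 : ℝ) 1) :
    FB ph j T t ^ 2 ≤ MJ ph j T := by
  have hc := FB_cont17 ph j T
  have hd := FD_cont17 ph j T
  have h1 : ∀ u ∈ Set.uIcc (0 : ℝ) t, HasDerivAt (fun u => FB ph j T u ^ 2) (2 * FB ph j T u * FD ph j T u) u := by
    intro u _
    have := (FB_deriv17 ph j T u).pow 2
    refine this.congr_deriv ?_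
    ring
  have h2 : ∫ u in (0 : ℝ)..t, 2 * FB ph j T u * FD ph j T u = FB ph j T t ^ 2 - FB ph j T 0 ^ 2 :=
    intervalIntegral.integral_eq_sub_of_hasDerivAt h1 (by
      refine Continuous.intervalIntegrable ?_ _ _
      fun_prop)
  have h3 : ∫ u in (0 : ℝ)..t, 2 * FB ph j T u * FD ph j T u ≤
      ∫ u in (0 : ℝ)..t, (FB ph j T u ^ 2 + FD ph j T u ^ 2) := by
    refine intervalIntegral.integral_mono_on ht.1 ?_ ?_ fun u _ => ?_
    · refine Continuous.intervalIntegrable ?_ _ _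
      fun_prop
    · refine Continuous.intervalIntegrable ?_ _ _
      fun_prop
    · nlinarith [sq_nonneg (FB ph j T u - FD ph j T u)]
  have h4 : ∫ u in (0 : ℝ)..t, (FB ph j T u ^ 2 + FD ph j T u ^ 2) ≤
      ∫ u in (0 : ℝ)..1, (FB ph j T u ^ 2 + FD ph j T u ^ 2) := by
    refine intervalIntegral.integral_mono_interval le_rfl ht.1 ht.2 ?_ ?_
    · exact Filter.Eventually.of_forall fun u => by positivity
    · refine Continuous.intervalIntegrable ?_ _ _
      fun_prop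
  unfold MJ
  linarith

private lemma MJ_nonneg17 (ph : ℕ → ℝ) (j : ℕ) (T : Finset ℕ) : 0 ≤ MJ ph j T :=
  (sq_nonneg _).trans (FB_le17 ph j T 0 ⟨le_rfl, zero_le_one⟩)

/-- the sum of the squares of the reciprocals -/
private lemma sum_sq17 (j : ℕ) : ∑ p ∈ BL j, 1 / (p : ℝ) ^ 2 ≤ 1 / (Y j : ℝ) := by
  have hsub : BL j ⊆ Finset.Ioc (Y j) (Y (j + 1)) := by
    intro p hp
    rw [mem_BL] at hp
    exact Finset.mem_Ioc.2 hp.2
  have hY : 0 < Y j := Y_pos j
  have key : ∀ m : ℕ, Y j ≤ m → ∑ p ∈ Finset.Ioc (Y j) m, 1 / (p : ℝ) ^ 2 ≤ 1 / (Y j : ℝ) - 1 / (m : ℝ) := by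
    intro m hm
    induction m, hm using Nat.le_induction with
    | base => simp
    | succ m hm ih =>
      have hm0 : (0 : ℝ) < m := by exact_mod_cast hY.trans_le hm
      have h1 : Finset.Ioc (Y j) (m + 1) = insert (m + 1) (Finset.Ioc (Y j) m) := by
        ext x
        simp only [Finset.mem_Ioc, Finset.mem_insert]
        omega
      rw [h1, Finset.sum_insert (by simp)]
      have h2 : 1 / ((m + 1 : ℕ) : ℝ) ^ 2 ≤ 1 / (m : ℝ) - 1 / ((m + 1 : ℕ) : ℝ) := by
        push_cast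
        rw [div_sub_div _ _ hm0.ne' (by positivity), div_le_div_iff₀ (by positivity) (by positivity)]
        nlinarith
      linarith
  refine (Finset.sum_le_sum_of_subset_of_nonneg hsub fun p _ _ => by positivity).trans ?_
  refine (key _ (Y_mono (Nat.le_succ j))).trans ?_
  have : (0 : ℝ) ≤ 1 / (Y (j + 1) : ℝ) := by positivity
  linarith

private lemma log_le17 {j p : ℕ} (hp : p ∈ BL j) : 0 ≤ Real.log p ∧ Real.log p ≤ 2 ^ (j + 1) := by
  rw [mem_BL] at hp
  have h1 : 1 ≤ p := hp.1.one_lt.le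
  have h1' : (1 : ℝ) ≤ p := by exact_mod_cast h1
  refine ⟨Real.log_nonneg h1', ?_⟩
  have h2 : Real.log p ≤ Real.log (Y (j + 1)) := Real.log_le_log (by linarith) (by exact_mod_cast hp.2.2)
  rw [log_Y] at h2
  have h3 : Real.log 2 ≤ 1 := by
    have := Real.log_two_lt_d9
    linarith
  have h4 : (0 : ℝ) ≤ 2 ^ (j + 1) := by positivity
  nlinarith

private lemma av_MJ17 (ph : ℕ → ℝ) {j K : ℕ} (hj : j < K) :
    av (PP (Y K)) (MJ ph j) ≤ 18 * 4 ^ j / Y j := by
  have hsub : BL j ⊆ PP (Y K) := (Finset.sdiff_subset).trans (PP_Y_mono hj)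
  have hYp : (0 : ℝ) < Y j := by exact_mod_cast Y_pos j
  have hA : ∀ t : ℝ, av (PP (Y K)) (fun T => FB ph j T t ^ 2) ≤ 1 / Y j := by
    intro t
    unfold FB
    rw [m2_17 hsub]
    refine le_trans (Finset.sum_le_sum fun p hp => ?_) (sum_sq17 j)
    rw [div_pow]
    have hp0 : (0 : ℝ) < p := by exact_mod_cast (mem_BL.1 hp).1.pos
    refine div_le_div_of_nonneg_right ?_ (by positivity)
    rw [sq_le_one_iff_abs_le_one]
    exact Real.abs_cos_le_one _
  have hB : ∀ t : ℝ, av (PP (Y K)) (fun T => FD ph j T t ^ 2) ≤ 16 * 4 ^ j / Y j := by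
    intro t
    unfold FD
    rw [m2_17 hsub]
    have h1 : ∑ p ∈ BL j, (-(2 * Real.log p * Real.sin (2 * (t * Real.log p - ph p))) / (p : ℝ)) ^ 2 ≤
        ∑ p ∈ BL j, (16 * 4 ^ j) * (1 / (p : ℝ) ^ 2) := by
      refine Finset.sum_le_sum fun p hp => ?_
      have hp0 : (0 : ℝ) < p := by exact_mod_cast (mem_BL.1 hp).1.pos
      obtain ⟨l1, l2⟩ := log_le17 hp
      rw [div_pow, mul_one_div]
      refine div_le_div_of_nonneg_right ?_ (by positivity)
      have h2 : Real.sin (2 * (t * Real.log p - ph p)) ^ 2 ≤ 1 := by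
        rw [sq_le_one_iff_abs_le_one]
        exact Real.abs_sin_le_one _
      have h3 : Real.log p ^ 2 ≤ (2 ^ (j + 1)) ^ 2 := pow_le_pow_left₀ l1 l2 2
      have h4 : ((2 : ℝ) ^ (j + 1)) ^ 2 = 4 * 4 ^ j := by
        rw [← pow_mul, mul_comm (j + 1) 2, pow_mul]
        norm_num
        ring
      have h5 : (-(2 * Real.log p * Real.sin (2 * (t * Real.log p - ph p)))) ^ 2 =
          4 * (Real.log p ^ 2 * Real.sin (2 * (t * Real.log p - ph p)) ^ 2) := by ring
      rw [h5]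
      have h6 : Real.log p ^ 2 * Real.sin (2 * (t * Real.log p - ph p)) ^ 2 ≤ Real.log p ^ 2 * 1 :=
        mul_le_mul_of_nonneg_left h2 (sq_nonneg _)
      rw [h4] at h3
      linarith
    refine h1.trans ?_
    rw [← Finset.mul_sum, mul_div_assoc, ← mul_one_div (4 ^ j : ℝ) (Y j : ℝ), ← mul_assoc]
    exact mul_le_mul_of_nonneg_left (sum_sq17 j) (by positivity)
  have hsum : av (PP (Y K)) (MJ ph j) = av (PP (Y K)) (fun T => FB ph j T 0 ^ 2) +
      ∫ u in (0 : ℝ)..1, av (PP (Y K)) (fun T => FB ph j T u ^ 2 + FD ph j T u ^ 2) := by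
    rw [← av_int17 _ (fun T u => FB ph j T u ^ 2 + FD ph j T u ^ 2) (fun T => by
      have := FB_cont17 ph j T
      have := FD_cont17 ph j T
      fun_prop), ← av_add]
    rfl
  rw [hsum]
  have hI : ∫ u in (0 : ℝ)..1, av (PP (Y K)) (fun T => FB ph j T u ^ 2 + FD ph j T u ^ 2) ≤
      ∫ _ in (0 : ℝ)..1, (1 / (Y j : ℝ) + 16 * 4 ^ j / Y j) := by
    refine intervalIntegral.integral_mono_on zero_le_one ?_ ?_ fun u _ => ?_
    · refine Continuous.intervalIntegrable ?_ _ _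
      unfold av
      refine Continuous.div_const (continuous_finsetSum _ fun T _ => ?_) _
      have := FB_cont17 ph j T
      have := FD_cont17 ph j T
      fun_prop
    · exact intervalIntegrable_const
    · rw [av_add]
      exact add_le_add (hA u) (hB u)
  rw [intervalIntegral.integral_const, sub_zero, one_smul] at hI
  have h1 := hA 0
  have h4 : (1 : ℝ) ≤ 4 ^ j := one_le_pow₀ (by norm_num)
  have h5 : 1 / (Y j : ℝ) + (1 / (Y j : ℝ) + 16 * 4 ^ j / Y j) ≤ 18 * 4 ^ j / Y j := by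
    rw [← add_div, ← add_div]
    refine div_le_div_of_nonneg_right ?_ hYp.le
    linarith
  linarith

private lemma five_le17 {j : ℕ} (hj : 5 ≤ j) : 5 * j ≤ 2 ^ j := by
  induction j, hj using Nat.le_induction with
  | base => norm_num
  | succ j hj ih =>
    rw [pow_succ]
    omega

private lemma pr_block17 (ph : ℕ → ℝ) {j K : ℕ} (hj : 5 ≤ j) (hjK : j < K) :
    pr (PP (Y K)) (fun T => (1 / 2 : ℝ) ^ (2 * j) ≤ MJ ph j T) ≤ 18 * (1 / 2) ^ j := by
  refine (markov (fun T _ => MJ_nonneg17 ph j T) (by positivity) (av_MJ17 ph hjK)).trans ?_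
  have h1 : (Y j : ℝ) = 2 ^ 2 ^ j := by
    unfold Y
    push_cast
    rfl
  rw [h1, div_div, div_le_iff₀ (by positivity)]
  have h2 : (4 : ℝ) ^ j = 2 ^ (2 * j) := by
    rw [pow_mul]
    norm_num
  have h3 : (2 : ℝ) ^ (5 * j) ≤ 2 ^ 2 ^ j := pow_le_pow_right₀ (by norm_num) (five_le17 hj)
  have h4 : (2 : ℝ) ^ (5 * j) = 2 ^ (2 * j) * 2 ^ (2 * j) * 2 ^ j := by
    rw [← pow_add, ← pow_add]
    congr 1
    ring
  have h5 : (2 : ℝ) ^ (2 * j) * (1 / 2) ^ (2 * j) = 1 := by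
    rw [← mul_pow]
    norm_num
  have h6 : (2 : ℝ) ^ j * (1 / 2) ^ j = 1 := by
    rw [← mul_pow]
    norm_num
  rw [h2]
  have h7 : (0 : ℝ) < (1 / 2) ^ j * (1 / 2) ^ (2 * j) := by positivity
  calc 18 * (2 : ℝ) ^ (2 * j) = 18 * ((2 ^ (2 * j) * 2 ^ (2 * j) * 2 ^ j) * ((1 / 2) ^ j * (1 / 2) ^ (2 * j))) := by
        rw [show (2 ^ (2 * j) * 2 ^ (2 * j) * 2 ^ j : ℝ) * ((1 / 2) ^ j * (1 / 2) ^ (2 * j)) =
          2 ^ (2 * j) * ((2 ^ (2 * j) * (1 / 2) ^ (2 * j)) * (2 ^ j * (1 / 2) ^ j)) by ring, h5, h6]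
        ring
    _ ≤ 18 * (2 ^ 2 ^ j * ((1 / 2) ^ j * (1 / 2) ^ (2 * j))) := by
        rw [← h4]
        exact mul_le_mul_of_nonneg_left (mul_le_mul_of_nonneg_right h3 h7.le) (by norm_num)
    _ = _ := by ring

/-- decomposition into blocks -/
private lemma sum_blocks17 (f : ℕ → ℝ) {s l : ℕ} (h : s ≤ l) :
    ∑ p ∈ PP (Y l) \ PP (Y s), f p = ∑ j ∈ Finset.Ico s l, ∑ p ∈ BL j, f p := by
  induction l, h using Nat.le_induction with
  | base => simp
  | succ l hl ih =>
    rw [Finset.sum_Ico_succ_top hl, ← ih]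
    have h1 : PP (Y (l + 1)) \ PP (Y s) = (PP (Y l) \ PP (Y s)) ∪ BL l := by
      ext p
      have h2 : Y s ≤ Y l := Y_mono hl
      have h3 : Y l ≤ Y (l + 1) := Y_mono (Nat.le_succ l)
      simp only [Finset.mem_sdiff, Finset.mem_union, mem_PP, mem_BL]
      constructor
      · rintro ⟨⟨hp, h4⟩, h5⟩
        by_cases h6 : p ≤ Y l
        · exact Or.inl ⟨⟨hp, h6⟩, h5⟩
        · exact Or.inr ⟨hp, by omega, h4⟩
      · rintro (⟨⟨hp, h4⟩, h5⟩ | ⟨hp, h4, h5⟩)
        · exact ⟨⟨hp, h4.trans h3⟩, h5⟩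
        · refine ⟨⟨hp, h5⟩, fun h6 => ?_⟩
          have := h6.2
          omega
    rw [h1, Finset.sum_union]
    rw [Finset.disjoint_left]
    intro p hp hp'
    have h4 := (mem_PP.1 (Finset.mem_sdiff.1 hp).1).2
    have h5 := (mem_BL.1 hp').2.1
    omega

private lemma geom17 {s l : ℕ} : ∑ j ∈ Finset.Ico s l, (1 / 2 : ℝ) ^ j ≤ 2 * (1 / 2) ^ s := by
  rcases le_total s l with h | h
  · have key : ∑ j ∈ Finset.Ico s l, (1 / 2 : ℝ) ^ j = 2 * (1 / 2) ^ s - 2 * (1 / 2) ^ l := by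
      induction l, h using Nat.le_induction with
      | base => simp
      | succ l hl ih =>
        rw [Finset.sum_Ico_succ_top hl, ih, pow_succ]
        ring
    rw [key]
    have : (0 : ℝ) < (1 / 2) ^ l := by positivity
    linarith
  · rw [Finset.Ico_eq_empty_of_le h, Finset.sum_empty]
    positivity

theorem stmtB : StmtB := by
  intro η hη
  obtain ⟨m, hm⟩ := exists_pow_lt_of_lt_one (y := (1 / 2 : ℝ)) (x := η / 36) (by positivity) (by norm_num)
  refine ⟨max 5 m, fun K ph => ?_⟩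
  set s0 := max 5 m with hs0
  have h5 : 5 ≤ s0 := le_max_left _ _
  have hkey : ∀ T ⊆ PP (Y K), ¬ PhOK s0 K (tt ph T) →
      ∃ j ∈ Finset.Ico s0 K, (1 / 2 : ℝ) ^ (2 * j) ≤ MJ ph j T := by
    intro T _ hT
    by_contra hcon
    push Not at hcon
    apply hT
    intro s l hs hsl hlK t ht
    have h1 : ∀ p : ℕ, Real.cos (2 * (t * Real.log p - tt ph T p)) / (p : ℝ) =
        sg T p * (Real.cos (2 * (t * Real.log p - ph p)) / p) := by
      intro p
      unfold tt sg
      split_ifs with hp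
      · have h2 : 2 * (t * Real.log p - (ph p + Real.pi / 2)) = 2 * (t * Real.log p - ph p) - Real.pi := by ring
        rw [h2, Real.cos_sub_pi]
        ring
      · rw [add_zero, one_mul]
    rw [Finset.sum_congr rfl fun p _ => h1 p, sum_blocks17 _ hsl]
    refine (Finset.abs_sum_le_sum_abs _ _).trans ?_
    have h3 : ∀ j ∈ Finset.Ico s l, |∑ p ∈ BL j, sg T p * (Real.cos (2 * (t * Real.log p - ph p)) / p)| ≤
        (1 / 2 : ℝ) ^ j := by
      intro j hj
      rw [Finset.mem_Ico] at hj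
      have h4 := hcon j (Finset.mem_Ico.2 ⟨hs.trans hj.1, hj.2.trans_le hlK⟩)
      have h6 := (FB_le17 ph j T t ht).trans h4.le
      have h7 : ((1 / 2 : ℝ) ^ (2 * j)) = ((1 / 2) ^ j) ^ 2 := by
        rw [← pow_mul, mul_comm]
      rw [h7] at h6
      exact abs_le_of_sq_le_sq h6 (by positivity)
    refine (Finset.sum_le_sum h3).trans (geom17.trans ?_)
    have h8 : (1 / 2 : ℝ) ^ s ≤ (1 / 2) ^ 1 := pow_le_pow_of_le_one (by norm_num) (by norm_num) (by omega)
    linarith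
  refine (pr_mono hkey).trans ((pr_exists _ _ _).trans ?_)
  have h6 : ∀ j ∈ Finset.Ico s0 K, pr (PP (Y K)) (fun T => (1 / 2 : ℝ) ^ (2 * j) ≤ MJ ph j T) ≤
      18 * (1 / 2) ^ j := by
    intro j hj
    rw [Finset.mem_Ico] at hj
    exact pr_block17 ph (h5.trans hj.1) hj.2
  refine (Finset.sum_le_sum h6).trans ?_
  rw [← Finset.mul_sum]
  have h7 : (1 / 2 : ℝ) ^ s0 ≤ (1 / 2) ^ m :=
    pow_le_pow_of_le_one (by norm_num) (by norm_num) (le_max_right _ _)
  have h8 := geom17 (s := s0) (l := K)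
  linarith

end Pool.Agent.IT
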